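import Mathlib
import Pool.Agent.MP_5897b0.Defs
import Pool.Agent.MP_5897b0.PosE
import Pool.Agent.MP_5897b0.NegE

/-! Analytic mad families of vector subspaces: for a countable field `F` an infinite mad family of
subspaces of the `F`-vector space with basis indexed by the natural numbers which is analytic (or
Borel) exists if and only if `F` does not have exactly two elements. -/

namespace Pool.Agent.Results.MP_5897b0_lc.MadSubspaces

open Pool.Agent.MP5897b0

lemma all_or_of_card {F : Type*} [Field F] (h : Nat.card F = 2) (b : F) : b = 0 ∨ b = 1 := by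
  obtain ⟨x, y, hxy, hu⟩ := Nat.card_eq_two_iff.mp h
  have hb : b ∈ ({x, y} : Set F) := by rw [hu]; trivial
  have h0 : (0 : F) ∈ ({x, y} : Set F) := by rw [hu]; trivial
  have h1 : (1 : F) ∈ ({x, y} : Set F) := by rw [hu]; trivial
  have h01 : (0 : F) ≠ 1 := zero_ne_one
  simp only [Set.mem_insert_iff, Set.mem_singleton_iff] at hb h0 h1
  rcases hb with rfl | rfl <;> rcases h0 with h0 | h0 <;> rcases h1 with h1 | h1 <;>
    first
      | exact Or.inl h0.symm
      | exact Or.inr h1.symm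
      | exact absurd (h0.trans h1.symm) h01

lemma exists_of_card {F : Type*} [Field F] (h : Nat.card F ≠ 2) : ∃ b : F, b ≠ 0 ∧ b ≠ 1 := by
  by_contra hcon
  push Not at hcon
  apply h
  rw [Nat.card_eq_two_iff]
  refine ⟨0, 1, zero_ne_one, ?_⟩
  ext b
  simp only [Set.mem_insert_iff, Set.mem_singleton_iff, Set.mem_univ, iff_true]
  by_cases hb : b = 0
  · exact Or.inl hb
  · exact Or.inr (hcon b hb)

theorem result (F : Type*) [Field F] [Countable F] :
    ((∃ A : Set (Submodule F (ℕ →₀ F)), IsMadFamily F A ∧ A.Infinite ∧ IsAnalyticFamily F A) ↔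
      Nat.card F ≠ 2) ∧
    ((∃ A : Set (Submodule F (ℕ →₀ F)), IsMadFamily F A ∧ A.Infinite ∧ IsBorelFamily F A) ↔
      Nat.card F ≠ 2) := by
  have hneg : ∀ A : Set (Submodule F (ℕ →₀ F)), IsMadFamily F A → A.Infinite →
      IsAnalyticFamily F A → Nat.card F ≠ 2 := fun A h1 h2 h3 h4 =>
    negative F (all_or_of_card h4) h1 h2 h3
  refine ⟨⟨fun ⟨A, h1, h2, h3⟩ => hneg A h1 h2 h3, fun h => ?_⟩,
    ⟨fun ⟨A, h1, h2, h3⟩ => hneg A h1 h2 ?_, fun h => ?_⟩⟩
  · obtain ⟨A, h1, h2, h3, _⟩ := positive F (exists_of_card h)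
    exact ⟨A, h1, h2, h3⟩
  · unfold IsAnalyticFamily
    unfold IsBorelFamily at h3
    let _ : MeasurableSpace ((ℕ →₀ F) → Bool) := borel _
    have : BorelSpace ((ℕ →₀ F) → Bool) := ⟨rfl⟩
    have : TopologicalSpace.IsCompletelyMetrizableSpace ((ℕ →₀ F) → Bool) := inferInstance
    have : SecondCountableTopology ((ℕ →₀ F) → Bool) := inferInstance
    have : PolishSpace ((ℕ →₀ F) → Bool) := {}
    exact h3.analyticSet
  · obtain ⟨A, h1, h2, _, h3⟩ := positive F (exists_of_card h)
    exact ⟨A, h1, h2, h3⟩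

end Pool.Agent.Results.MP_5897b0_lc.MadSubspaces
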